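import Mathlib

/-! Looped graphs with midpoints: the minimal cylinder argument (note 7046 of helper44). -/

namespace H69P4

open Finset

variable {X : Type*} [DecidableEq X]

/-- induced path a - b - c - d -/
def P4 (M : X → X → Bool) (a b c d : X) : Prop :=
  M a b = true ∧ M b c = true ∧ M c d = true ∧ M a c = false ∧ M b d = false ∧ M a d = false

def NoP4 (M : X → X → Bool) (D : Finset X) : Prop :=
  ∀ a ∈ D, ∀ b ∈ D, ∀ c ∈ D, ∀ d ∈ D, ¬ P4 M a b c d

def PairsIn (M : X → X → Bool) (D : Finset X) : Prop :=
  ∀ u ∈ D, ∀ v ∈ D, u ≠ v → M u u = M v v → M u v = !M u u →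
    ∃ g ∈ D, M g g = (!M u u) ∧ M g u = (!M u u) ∧ M g v = (!M u u) ∧
      ∀ y, M u y = M v y → M g y = M u y

/-- g sees exactly one of the four middle pairs -/
def Bad (M : X → X → Bool) (g a b c d : X) : Prop :=
  (M g a = true ∧ M g b = true ∧ M g c = false ∧ M g d = false) ∨
  (M g a = false ∧ M g b = false ∧ M g c = true ∧ M g d = true) ∨
  (M g a = true ∧ M g b = false ∧ M g c = true ∧ M g d = false) ∨
  (M g a = false ∧ M g b = true ∧ M g c = false ∧ M g d = true)

lemma NoP4.mono {M : X → X → Bool} {D E : Finset X} (h : NoP4 M E) (hs : D ⊆ E) : NoP4 M D :=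
  fun a ha b hb c hc d hd => h a (hs ha) b (hs hb) c (hs hc) d (hs hd)

lemma NoP4.compl {M : X → X → Bool} (hM : ∀ x y, M x y = M y x) {D : Finset X}
    (h : NoP4 M D) : NoP4 (fun x y => !M x y) D := by
  intro a ha b hb c hc d hd hp
  unfold P4 at hp
  simp only [Bool.not_eq_true', Bool.not_eq_false'] at hp
  obtain ⟨h1, h2, h3, h4, h5, h6⟩ := hp
  exact h b hb d hd a ha c hc ⟨h5, by rw [hM]; exact h6, h4, by rw [hM]; exact h1,
    by rw [hM]; exact h3, h2⟩

lemma PairsIn.compl {M : X → X → Bool} {D : Finset X}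
    (h : PairsIn M D) : PairsIn (fun x y => !M x y) D := by
  intro u hu v hv huv h1 h2
  have h1' : M u u = M v v := by
    have := h1
    simpa using this
  have h2' : M u v = !M u u := by
    have := h2
    simp only [Bool.not_not] at this
    rw [← this]; simp
  obtain ⟨g, hg, a1, a2, a3, a4⟩ := h u hu v hv huv h1' h2'
  refine ⟨g, hg, by simp [a1], by simp [a2], by simp [a3], ?_⟩
  intro y hy
  have hy' : M u y = M v y := by simpa using hy
  simp [a4 y hy']

lemma PairsIn.filter {M : X → X → Bool} (hM : ∀ x y, M x y = M y x) {D : Finset X}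
    (h : PairsIn M D) (w : X) (s : Bool) : PairsIn M (D.filter (fun y => M w y = s)) := by
  intro u hu v hv huv h1 h2
  rw [mem_filter] at hu hv
  obtain ⟨g, hg, a1, a2, a3, a4⟩ := h u hu.1 v hv.1 huv h1 h2
  refine ⟨g, ?_, a1, a2, a3, a4⟩
  rw [mem_filter]
  refine ⟨hg, ?_⟩
  have := a4 w (by rw [hM u w, hM v w, hu.2, hv.2])
  rw [hM w g, this, hM u w, hu.2]

/-- K is a union of components of D -/
def Cl (M : X → X → Bool) (D K : Finset X) : Prop :=
  K ⊆ D ∧ ∀ x ∈ K, ∀ y ∈ D, y ∉ K → M x y = false

lemma exists_min_cl (M : X → X → Bool) (D : Finset X) (z : X) (hz : z ∈ D) :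
    ∃ K, Cl M D K ∧ z ∈ K ∧ ∀ K', Cl M D K' → z ∈ K' → K' ⊆ K → K' = K := by
  classical
  have hne : (D.powerset.filter (fun K => z ∈ K ∧ Cl M D K)).Nonempty :=
    ⟨D, by
      rw [mem_filter, mem_powerset]
      exact ⟨Subset.refl _, hz, Subset.refl _, fun x _ y hy hy' => absurd hy hy'⟩⟩
  obtain ⟨K, hK, hmin⟩ := exists_min_image _ (fun K => K.card) hne
  rw [mem_filter, mem_powerset] at hK
  refine ⟨K, hK.2.2, hK.2.1, ?_⟩
  intro K' hK' hz' hs
  apply eq_of_subset_of_card_le hs
  apply hmin
  rw [mem_filter, mem_powerset]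
  exact ⟨hK'.1, hz', hK'⟩

/-- a set of at least two points without induced P4 splits -/
theorem seinsche {M : X → X → Bool} (hM : ∀ x y, M x y = M y x) :
    ∀ (n : ℕ) (D : Finset X), D.card = n → 2 ≤ n → NoP4 M D →
      ∃ A B : Finset X, A.Nonempty ∧ B.Nonempty ∧ Disjoint A B ∧ A ∪ B = D ∧
        ∃ s : Bool, ∀ a ∈ A, ∀ b ∈ B, M a b = s := by
  intro n
  induction n with
  | zero => intro D _ h2; omega
  | succ n ih =>
    intro D hD h2 hP
    have hne : D.Nonempty := by
      rw [← card_pos]; omega
    obtain ⟨v, hv⟩ := hne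
    set D' := D.erase v with hD'
    have hcard : D'.card = n := by
      rw [hD', card_erase_of_mem hv]; omega
    have hvD' : v ∉ D' := notMem_erase v D
    have hins : insert v D' = D := insert_erase hv
    by_cases hn : 2 ≤ n
    · obtain ⟨A, B, hA, hB, hAB, hABD, s, hs⟩ := ih D' hcard hn (hP.mono (erase_subset _ _))
      -- reduce to s = false
      have key : ∀ (M : X → X → Bool), (∀ x y, M x y = M y x) → NoP4 M D →
          (∀ a ∈ A, ∀ b ∈ B, M a b = false) →
          ∃ A B : Finset X, A.Nonempty ∧ B.Nonempty ∧ Disjoint A B ∧ A ∪ B = D ∧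
            ∃ s : Bool, ∀ a ∈ A, ∀ b ∈ B, M a b = s := by
        intro M hM hP hs
        by_cases hall : ∀ w ∈ D', M v w = true
        · refine ⟨{v}, D', singleton_nonempty v, ?_, ?_, ?_, true, ?_⟩
          · rw [← card_pos]; omega
          · rw [disjoint_singleton_left]; exact hvD'
          · rw [← hins]; rfl
          · intro a ha b hb
            rw [mem_singleton] at ha
            rw [ha]; exact hall b hb
        · push Not at hall
          obtain ⟨w, hw, hvw⟩ := hall
          have hvw' : M v w = false := by simpa using hvw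
          obtain ⟨K, hK, hwK, hKmin⟩ := exists_min_cl M D' w hw
          have hAcl : Cl M D' A := by
            refine ⟨by rw [← hABD]; exact subset_union_left, ?_⟩
            intro x hx y hy hy'
            rw [← hABD, mem_union] at hy
            exact hs x hx y (hy.resolve_left hy')
          have hBcl : Cl M D' B := by
            refine ⟨by rw [← hABD]; exact subset_union_right, ?_⟩
            intro x hx y hy hy'
            rw [← hABD, mem_union] at hy
            rw [hM]
            exact hs y (hy.resolve_right hy') x hx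
          have hinter : ∀ L, Cl M D' L → Cl M D' (K ∩ L) := by
            intro L hL
            refine ⟨fun x hx => hK.1 (mem_inter.1 hx).1, ?_⟩
            intro x hx y hy hy'
            rw [mem_inter] at hx hy'
            by_cases h : y ∈ K
            · exact hL.2 x hx.2 y hy (fun h' => hy' ⟨h, h'⟩)
            · exact hK.2 x hx.1 y hy h
          -- K is proper
          have hprop : ∃ t, t ∈ D' ∧ t ∉ K := by
            rcases mem_union.1 (by rw [hABD]; exact hw : w ∈ A ∪ B) with hwA | hwB
            · have h1 := hKmin (K ∩ A) (hinter A hAcl) (mem_inter.2 ⟨hwK, hwA⟩) inter_subset_left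
              obtain ⟨t, ht⟩ := hB
              refine ⟨t, hBcl.1 ht, ?_⟩
              intro htK
              rw [← h1, mem_inter] at htK
              exact (disjoint_left.1 hAB htK.2) ht
            · have h1 := hKmin (K ∩ B) (hinter B hBcl) (mem_inter.2 ⟨hwK, hwB⟩) inter_subset_left
              obtain ⟨t, ht⟩ := hA
              refine ⟨t, hAcl.1 ht, ?_⟩
              intro htK
              rw [← h1, mem_inter] at htK
              exact (disjoint_left.1 hAB ht) htK.2
          by_cases hu : ∃ u ∈ K, M v u = true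
          · by_cases ht : ∃ t ∈ D', t ∉ K ∧ M v t = true
            · exfalso
              obtain ⟨t, htD, htK, hvt⟩ := ht
              -- an edge in K from N(v) to the complement
              have hedge : ∃ u ∈ K, ∃ w ∈ K, M v u = true ∧ M v w = false ∧ M u w = true := by
                by_contra hno
                push Not at hno
                have hcl : Cl M D' (K.filter (fun x => M v x = false)) := by
                  refine ⟨fun x hx => hK.1 (mem_filter.1 hx).1, ?_⟩
                  intro x hx y hy hy'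
                  rw [mem_filter] at hx hy'
                  by_cases h : y ∈ K
                  · have hvy : M v y = true := by
                      by_contra hcon
                      exact hy' ⟨h, by simpa using hcon⟩
                    have := hno y h x hx.1 hvy hx.2
                    rw [hM]
                    simpa using this
                  · exact hK.2 x hx.1 y hy h
                have h1 := hKmin _ hcl (mem_filter.2 ⟨hwK, hvw'⟩) (filter_subset _ _)
                obtain ⟨u, huK, hvu⟩ := hu
                rw [← h1, mem_filter] at huK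
                rw [huK.2] at hvu
                exact absurd hvu (by decide)
              obtain ⟨u, huK, w', hwK', hvu, hvw2, huw⟩ := hedge
              have hsub : D' ⊆ D := erase_subset _ _
              refine hP t (hsub htD) v hv u (hsub (hK.1 huK)) w' (hsub (hK.1 hwK'))
                ⟨by rw [hM]; exact hvt, hvu, huw, ?_, hvw2, ?_⟩
              · rw [hM]; exact hK.2 u huK t htD htK
              · rw [hM]; exact hK.2 w' hwK' t htD htK
            · push Not at ht
              refine ⟨insert v K, D' \ K, insert_nonempty _ _, ?_, ?_, ?_, false, ?_⟩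
              · obtain ⟨t, h1, h2⟩ := hprop
                exact ⟨t, mem_sdiff.2 ⟨h1, h2⟩⟩
              · rw [disjoint_left]
                intro x hx hx'
                rw [mem_insert] at hx
                rw [mem_sdiff] at hx'
                rcases hx with rfl | hx
                · exact hvD' hx'.1
                · exact hx'.2 hx
              · rw [insert_union, union_sdiff_of_subset hK.1, hins]
              · intro a ha b hb
                rw [mem_insert] at ha
                rw [mem_sdiff] at hb
                rcases ha with rfl | ha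
                · have := ht b hb.1 hb.2
                  simpa using this
                · exact hK.2 a ha b hb.1 hb.2
          · push Not at hu
            refine ⟨K, insert v (D' \ K), ⟨w, hwK⟩, insert_nonempty _ _, ?_, ?_, false, ?_⟩
            · rw [disjoint_left]
              intro x hx hx'
              rw [mem_insert, mem_sdiff] at hx'
              rcases hx' with rfl | hx'
              · exact hvD' (hK.1 hx)
              · exact hx'.2 hx
            · rw [union_insert, union_sdiff_of_subset hK.1, hins]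
            · intro a ha b hb
              rw [mem_insert, mem_sdiff] at hb
              rcases hb with rfl | hb
              · have := hu a ha
                rw [hM]
                simpa using this
              · exact hK.2 a ha b hb.1 hb.2
      cases s with
      | false => exact key M hM hP hs
      | true =>
        obtain ⟨A', B', h1, h2, h3, h4, s', h5⟩ := key (fun x y => !M x y)
          (fun x y => by simp only [hM x y]) (hP.compl hM)
          (fun a ha b hb => by simp [hs a ha b hb])
        refine ⟨A', B', h1, h2, h3, h4, !s', ?_⟩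
        intro a ha b hb
        have h6 : (!M a b) = s' := h5 a ha b hb
        rw [← h6]; simp
    · have hn1 : n = 1 := by omega
      rw [hn1, card_eq_one] at hcard
      obtain ⟨w, hw⟩ := hcard
      refine ⟨{v}, {w}, singleton_nonempty v, singleton_nonempty w, ?_, ?_, M v w, ?_⟩
      · rw [disjoint_singleton]
        intro h
        apply hvD'
        rw [hw, h]
        exact mem_singleton_self _
      · rw [← hins, hw]; rfl
      · intro a ha b hb
        rw [mem_singleton] at ha hb
        rw [ha, hb]

/-- components inherit the midpoints -/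
lemma pairs_min_cl {M : X → X → Bool} (hM : ∀ x y, M x y = M y x) {D K : Finset X}
    (hP : NoP4 M D) (hD : PairsIn M D) {z : X} (hK : Cl M D K) (hz : z ∈ K)
    (hmin : ∀ K', Cl M D K' → z ∈ K' → K' ⊆ K → K' = K) : PairsIn M K := by
  intro u hu v hv huv h1 h2
  obtain ⟨g, hg, a1, a2, a3, a4⟩ := hD u (hK.1 hu) v (hK.1 hv) huv h1 h2
  refine ⟨g, ?_, a1, a2, a3, a4⟩
  by_contra hgK
  cases hc : M u u with
  | false =>
    have := hK.2 u hu g hg hgK
    rw [hM, a2, hc] at this
    exact absurd this (by decide)
  | true =>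
    -- u, v nonadjacent: common neighbour
    have hcard : 2 ≤ K.card := by
      have : ({u, v} : Finset X) ⊆ K := by
        intro x hx
        rw [mem_insert, mem_singleton] at hx
        rcases hx with rfl | rfl <;> assumption
      calc 2 = ({u, v} : Finset X).card := (card_pair huv).symm
        _ ≤ K.card := card_le_card this
    obtain ⟨A, B, hA, hB, hAB, hABK, s, hs⟩ := seinsche hM _ K rfl hcard (hP.mono hK.1)
    have hAK : A ⊆ K := by rw [← hABK]; exact subset_union_left
    have hBK : B ⊆ K := by rw [← hABK]; exact subset_union_right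
    have hst : s = true := by
      cases s with
      | true => rfl
      | false =>
        exfalso
        have hcA : Cl M D A := by
          refine ⟨hAK.trans hK.1, ?_⟩
          intro x hx y hy hy'
          by_cases h : y ∈ K
          · rw [← hABK, mem_union] at h
            exact hs x hx y (h.resolve_left hy')
          · exact hK.2 x (hAK hx) y hy h
        have hcB : Cl M D B := by
          refine ⟨hBK.trans hK.1, ?_⟩
          intro x hx y hy hy'
          by_cases h : y ∈ K
          · rw [← hABK, mem_union] at h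
            rw [hM]
            exact hs y (h.resolve_right hy') x hx
          · exact hK.2 x (hBK hx) y hy h
        rw [← hABK, mem_union] at hz
        rcases hz with hz | hz
        · have := hmin A hcA hz hAK
          obtain ⟨t, ht⟩ := hB
          have htA : t ∈ A := by rw [this]; exact hBK ht
          exact disjoint_left.1 hAB htA ht
        · have := hmin B hcB hz hBK
          obtain ⟨t, ht⟩ := hA
          have htB : t ∈ B := by rw [this]; exact hAK ht
          exact disjoint_left.1 hAB ht htB
    have huv' : M u v = false := by rw [h2, hc]; rfl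
    -- a common neighbour in K
    have hcn : ∃ t ∈ K, M u t = true ∧ M v t = true := by
      have hu' := hu
      have hv' := hv
      rw [← hABK, mem_union] at hu' hv'
      rcases hu' with hu' | hu' <;> rcases hv' with hv' | hv'
      · obtain ⟨t, ht⟩ := hB
        exact ⟨t, hBK ht, by rw [hs u hu' t ht, hst], by rw [hs v hv' t ht, hst]⟩
      · exfalso
        have := hs u hu' v hv'
        rw [huv', hst] at this
        exact absurd this (by decide)
      · exfalso
        have := hs v hv' u hu'
        rw [hM, huv', hst] at this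
        exact absurd this (by decide)
      · obtain ⟨t, ht⟩ := hA
        exact ⟨t, hAK ht, by rw [hM, hs t ht u hu', hst], by rw [hM, hs t ht v hv', hst]⟩
    obtain ⟨t, ht, hut, hvt⟩ := hcn
    have h3 := a4 t (by rw [hut, hvt])
    have h4 := hK.2 t ht g hg hgK
    rw [hM, h3, hut] at h4
    exact absurd h4 (by decide)

/-- CLAIM A -/
theorem root : ∀ (n : ℕ) (M : X → X → Bool) (_ : ∀ x y, M x y = M y x) (D : Finset X),
    D.card = n → D.Nonempty → PairsIn M D → NoP4 M D → ∃ r ∈ D, ∀ x ∈ D, M r x = M r r := by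
  intro n
  induction n using Nat.strong_induction_on with
  | _ n ih =>
    intro M hM D hn hne hD hP
    by_cases h2 : 2 ≤ n
    · obtain ⟨A, B, hA, hB, hAB, hABD, s, hs⟩ := seinsche hM n D hn h2 hP
      have key : ∀ (M : X → X → Bool), (∀ x y, M x y = M y x) → NoP4 M D → PairsIn M D →
          (∀ a ∈ A, ∀ b ∈ B, M a b = false) → ∃ r ∈ D, ∀ x ∈ D, M r x = M r r := by
        intro M hM hP hD hs
        have hAD : A ⊆ D := by rw [← hABD]; exact subset_union_left
        have hBD : B ⊆ D := by rw [← hABD]; exact subset_union_right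
        obtain ⟨z1, hz1⟩ := hA
        obtain ⟨z2, hz2⟩ := hB
        have hAcl : Cl M D A := by
          refine ⟨hAD, ?_⟩
          intro x hx y hy hy'
          rw [← hABD, mem_union] at hy
          exact hs x hx y (hy.resolve_left hy')
        have hBcl : Cl M D B := by
          refine ⟨hBD, ?_⟩
          intro x hx y hy hy'
          rw [← hABD, mem_union] at hy
          rw [hM]
          exact hs y (hy.resolve_right hy') x hx
        have hinter : ∀ K L, Cl M D K → Cl M D L → Cl M D (K ∩ L) := by
          intro K L hK hL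
          refine ⟨fun x hx => hK.1 (mem_inter.1 hx).1, ?_⟩
          intro x hx y hy hy'
          rw [mem_inter] at hx hy'
          by_cases h : y ∈ K
          · exact hL.2 x hx.2 y hy (fun h' => hy' ⟨h, h'⟩)
          · exact hK.2 x hx.1 y hy h
        obtain ⟨K1, hK1, hzK1, hmin1⟩ := exists_min_cl M D z1 (hAD hz1)
        obtain ⟨K2, hK2, hzK2, hmin2⟩ := exists_min_cl M D z2 (hBD hz2)
        have hK1A : K1 ⊆ A := by
          have := hmin1 (K1 ∩ A) (hinter _ _ hK1 hAcl) (mem_inter.2 ⟨hzK1, hz1⟩) inter_subset_left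
          rw [← this]; exact inter_subset_right
        have hK2B : K2 ⊆ B := by
          have := hmin2 (K2 ∩ B) (hinter _ _ hK2 hBcl) (mem_inter.2 ⟨hzK2, hz2⟩) inter_subset_left
          rw [← this]; exact inter_subset_right
        have hc1 : K1.card < n := by
          rw [← hn]
          apply card_lt_card
          refine ⟨hK1.1, fun h => ?_⟩
          exact disjoint_left.1 hAB (hK1A (h (hBD hz2))) hz2
        have hc2 : K2.card < n := by
          rw [← hn]
          apply card_lt_card
          refine ⟨hK2.1, fun h => ?_⟩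
          exact disjoint_left.1 hAB hz1 (hK2B (h (hAD hz1)))
        obtain ⟨r1, hr1, hr1'⟩ := ih K1.card hc1 M hM K1 rfl ⟨z1, hzK1⟩
          (pairs_min_cl hM hP hD hK1 hzK1 hmin1) (hP.mono hK1.1)
        obtain ⟨r2, hr2, hr2'⟩ := ih K2.card hc2 M hM K2 rfl ⟨z2, hzK2⟩
          (pairs_min_cl hM hP hD hK2 hzK2 hmin2) (hP.mono hK2.1)
        cases hc : M r1 r1 with
        | false =>
          refine ⟨r1, hK1.1 hr1, ?_⟩
          intro x hx
          by_cases h : x ∈ K1
          · exact hr1' x h
          · rw [hc]; exact hK1.2 r1 hr1 x hx h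
        | true =>
          cases hd : M r2 r2 with
          | false =>
            refine ⟨r2, hK2.1 hr2, ?_⟩
            intro x hx
            by_cases h : x ∈ K2
            · exact hr2' x h
            · rw [hd]; exact hK2.2 r2 hr2 x hx h
          | true =>
            have hne12 : r1 ≠ r2 := by
              rintro rfl
              exact disjoint_left.1 hAB (hK1A hr1) (hK2B hr2)
            have h12 : M r1 r2 = false := hs r1 (hK1A hr1) r2 (hK2B hr2)
            obtain ⟨g, hg, a1, a2, a3, a4⟩ := hD r1 (hK1.1 hr1) r2 (hK2.1 hr2) hne12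
              (by rw [hc, hd]) (by rw [h12, hc]; rfl)
            rw [hc] at a1 a2 a3
            have hg1 : g ∉ K1 := by
              intro h
              have := hr1' g h
              rw [hM, a2, hc] at this
              exact absurd this (by decide)
            have hg2 : g ∉ K2 := by
              intro h
              have := hr2' g h
              rw [hM, a3, hd] at this
              exact absurd this (by decide)
            refine ⟨g, hg, ?_⟩
            intro x hx
            rw [a1]
            by_cases h1 : x ∈ K1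
            · rw [hM]; exact hK1.2 x h1 g hg hg1
            · by_cases h2 : x ∈ K2
              · rw [hM]; exact hK2.2 x h2 g hg hg2
              · have e1 := hK1.2 r1 hr1 x hx h1
                have e2 := hK2.2 r2 hr2 x hx h2
                rw [a4 x (by rw [e1, e2]), e1]
                rfl
      cases s with
      | false => exact key M hM hP hD hs
      | true =>
        obtain ⟨r, hr, hr'⟩ := key (fun x y => !M x y)
          (fun x y => by simp only [hM x y]) (hP.compl hM) hD.compl
          (fun a ha b hb => by simp [hs a ha b hb])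
        refine ⟨r, hr, ?_⟩
        intro x hx
        have := hr' x hx
        simpa using this
    · have h1 : D.card = 1 := by
        have : 0 < D.card := card_pos.2 hne
        omega
      rw [card_eq_one] at h1
      obtain ⟨w, hw⟩ := h1
      refine ⟨w, by rw [hw]; exact mem_singleton_self w, ?_⟩
      intro x hx
      rw [hw, mem_singleton] at hx
      rw [hx]

/-- the component of a vertex z with a neighbour has a full vertex -/
theorem comp {M : X → X → Bool} (hM : ∀ x y, M x y = M y x) {D : Finset X}
    (hP : NoP4 M D) (hD : PairsIn M D) {z v : X} (hz : z ∈ D) (hv : v ∈ D) (hzv : M z v = true) :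
    ∃ K, Cl M D K ∧ z ∈ K ∧ ∃ f ∈ K, ∀ x ∈ K, M f x = true := by
  obtain ⟨K, hK, hzK, hmin⟩ := exists_min_cl M D z hz
  refine ⟨K, hK, hzK, ?_⟩
  obtain ⟨r, hr, hr'⟩ := root K.card M hM K rfl ⟨z, hzK⟩
    (pairs_min_cl hM hP hD hK hzK hmin) (hP.mono hK.1)
  cases hc : M r r with
  | true =>
    exact ⟨r, hr, fun x hx => by rw [hr' x hx, hc]⟩
  | false =>
    exfalso
    rw [hc] at hr'
    have hvK : v ∈ K := by
      by_contra h
      have := hK.2 z hzK v hv h
      rw [hzv] at this
      exact absurd this (by decide)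
    by_cases hrz : r = z
    · subst hrz
      have := hr' v hvK
      rw [hzv] at this
      exact absurd this (by decide)
    · have hcl : Cl M D (K.erase r) := by
        refine ⟨(erase_subset _ _).trans hK.1, ?_⟩
        intro x hx y hy hy'
        rw [mem_erase] at hx hy'
        by_cases h : y ∈ K
        · have : y = r := by
            by_contra hne
            exact hy' ⟨hne, h⟩
          rw [this, hM]
          exact hr' x hx.2
        · exact hK.2 x hx.2 y hy h
      have := hmin _ hcl (mem_erase.2 ⟨fun h => hrz h.symm, hzK⟩) (erase_subset _ _)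
      have h2 : r ∈ K.erase r := by rw [this]; exact hr
      exact notMem_erase r K h2


/-- (1) of 7046 -/
lemma plus {M : X → X → Bool} (hM : ∀ x y, M x y = M y x) {C : Finset X} (hC : PairsIn M C)
    (hmin : ∀ w ∈ C, ∀ y ∈ C, ∀ z ∈ C, M w y = true → M w z = false →
      NoP4 M (C.filter (fun x => M w x = true)) ∧ NoP4 M (C.filter (fun x => M w x = false)))
    {w y : X} (hw : w ∈ C) (hww : M w w = false) (hy : y ∈ C) (hwy : M w y = true) :
    ∃ p ∈ C, M p p = true ∧ M p w = true ∧ ∀ z ∈ C, M w z = true → M p z = true := by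
  have hP := (hmin w hw y hy w hw hwy hww).1
  obtain ⟨r, hr, hr'⟩ := root _ M hM (C.filter (fun x => M w x = true)) rfl
    ⟨y, mem_filter.2 ⟨hy, hwy⟩⟩ (hC.filter hM w true) hP
  rw [mem_filter] at hr
  cases hc : M r r with
  | true =>
    refine ⟨r, hr.1, hc, by rw [hM]; exact hr.2, ?_⟩
    intro z hz hwz
    rw [hr' z (mem_filter.2 ⟨hz, hwz⟩), hc]
  | false =>
    exfalso
    have hne : w ≠ r := by
      rintro rfl
      rw [hr.2] at hc
      exact absurd hc (by decide)
    obtain ⟨g, hg, a1, a2, a3, a4⟩ := hC w hw r hr.1 hne (by rw [hww, hc]) (by rw [hr.2, hww]; rfl)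
    rw [hww] at a1 a2 a3
    have h1 : g ∈ C.filter (fun x => M w x = true) := mem_filter.2 ⟨hg, by rw [hM]; exact a2⟩
    have h2 := hr' g h1
    rw [hM, a3, hc] at h2
    exact absurd h2 (by decide)

/-- (2) of 7046 -/
lemma iso {M : X → X → Bool} (hM : ∀ x y, M x y = M y x) {C : Finset X} (hC : PairsIn M C)
    (hmin : ∀ w ∈ C, ∀ y ∈ C, ∀ z ∈ C, M w y = true → M w z = false →
      NoP4 M (C.filter (fun x => M w x = true)) ∧ NoP4 M (C.filter (fun x => M w x = false)))
    {b c z : X} (hc : c ∈ C) (hcc : M c c = true)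
    (hbc : M b c = true) (hz : z ∈ C) (hbz : M b z = true) (hcz : M c z = false) :
    ∃ a ∈ C, M b a = true ∧ M c a = false ∧ M a a = false ∧
      ∀ x ∈ C, M b x = true → M c x = false → M a x = false := by
  have hP := (hmin c hc c hc z hz hcc hcz).2
  obtain ⟨r, hr, hr'⟩ := root _ M hM ((C.filter (fun x => M c x = false)).filter
      (fun x => M b x = true)) rfl
    ⟨z, mem_filter.2 ⟨mem_filter.2 ⟨hz, hcz⟩, hbz⟩⟩ ((hC.filter hM c false).filter hM b true)
    (hP.mono (filter_subset _ _))
  rw [mem_filter, mem_filter] at hr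
  cases hd : M r r with
  | false =>
    refine ⟨r, hr.1.1, hr.2, hr.1.2, hd, ?_⟩
    intro x hx hbx hcx
    rw [hr' x (mem_filter.2 ⟨mem_filter.2 ⟨hx, hcx⟩, hbx⟩), hd]
  | true =>
    exfalso
    have hne : r ≠ c := by
      rintro rfl
      rw [hr.1.2] at hcc
      exact absurd hcc (by decide)
    have hrc : M r c = false := by rw [hM]; exact hr.1.2
    obtain ⟨g, hg, a1, a2, a3, a4⟩ := hC r hr.1.1 c hc hne (by rw [hd, hcc]) (by rw [hrc, hd]; rfl)
    rw [hd] at a1 a2 a3
    have hrb : M r b = true := by rw [hM]; exact hr.2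
    have hcb : M c b = true := by rw [hM]; exact hbc
    have hgb : M g b = true := by rw [a4 b (by rw [hrb, hcb]), hrb]
    have h1 : g ∈ (C.filter (fun x => M c x = false)).filter (fun x => M b x = true) :=
      mem_filter.2 ⟨mem_filter.2 ⟨hg, by rw [hM]; exact a3⟩, by rw [hM]; exact hgb⟩
    have h2 := hr' g h1
    rw [hM, a2, hd] at h2
    exact absurd h2 (by decide)

/-- (3)-(5) of 7046 -/
theorem core {M : X → X → Bool} (hM : ∀ x y, M x y = M y x) {C : Finset X} (hC : PairsIn M C)
    (hmin : ∀ w ∈ C, ∀ y ∈ C, ∀ z ∈ C, M w y = true → M w z = false →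
      NoP4 M (C.filter (fun x => M w x = true)) ∧ NoP4 M (C.filter (fun x => M w x = false)))
    (h4 : ¬ NoP4 M C) (hfull : ¬ ∃ w ∈ C, ∀ y ∈ C, M w y = true) :
    ∃ a ∈ C, ∃ b ∈ C, ∃ c ∈ C, ∃ d ∈ C, P4 M a b c d ∧ M a a = false ∧ M b b = true ∧
      M c c = true ∧ M d d = false ∧ ∀ g ∈ C, ¬ Bad M g a b c d := by
  -- the path
  unfold NoP4 at h4
  push Not at h4
  obtain ⟨p1, hp1, p2, hp2, p3, hp3, p4, hp4, hp⟩ := h4
  -- maximal neighbourhood
  obtain ⟨b, hb, hbmax⟩ : ∃ b ∈ C, ∀ x ∈ C, (∀ z ∈ C, M b z = true → M x z = true) →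
      (∀ z ∈ C, M x z = true → M b z = true) := by
    obtain ⟨b, hb, hbm⟩ := exists_max_image C (fun b => (C.filter (fun x => M b x = true)).card)
      ⟨p1, hp1⟩
    refine ⟨b, hb, ?_⟩
    intro x hx hsub z hz hxz
    have h1 : C.filter (fun y => M b y = true) ⊆ C.filter (fun y => M x y = true) := by
      intro y hy
      rw [mem_filter] at hy ⊢
      exact ⟨hy.1, hsub y hy.1 hy.2⟩
    have h2 := eq_of_subset_of_card_le h1 (hbm x hx)
    have h3 : z ∈ C.filter (fun y => M b y = true) := by
      rw [h2, mem_filter]; exact ⟨hz, hxz⟩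
    exact (mem_filter.1 h3).2
  have hbb : M b b = true := by
    by_contra hcon
    have hbb : M b b = false := by simpa using hcon
    by_cases hne : ∃ y ∈ C, M b y = true
    · obtain ⟨y, hy, hby⟩ := hne
      obtain ⟨p, hp, _, hpb, hpz⟩ := plus hM hC hmin hb hbb hy hby
      have := hbmax p hp hpz b hb hpb
      exact hcon this
    · push Not at hne
      have := hbmax p1 hp1 (fun z hz h => absurd h (by simpa using hne z hz)) p2 hp2 hp.1
      exact hne p2 hp2 this
  obtain ⟨b0, hb0, hbb0⟩ : ∃ y ∈ C, M b y = false := by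
    by_contra hno
    push Not at hno
    exact hfull ⟨b, hb, fun y hy => by simpa using hno y hy⟩
  obtain ⟨hNb, hGb⟩ := hmin b hb b hb b0 hb0 hbb hbb0
  -- an edge leaving N(b)
  obtain ⟨y, hy, z, hz, hby, hbz, hyz⟩ : ∃ y ∈ C, ∃ z ∈ C, M b y = true ∧ M b z = false ∧
      M y z = true := by
    obtain ⟨e1, e2, e3, _, _, _⟩ := id hp
    cases h1 : M b p1 <;> cases h2 : M b p2 <;> cases h3 : M b p3 <;> cases h4 : M b p4
    · exfalso
      exact hGb p1 (mem_filter.2 ⟨hp1, h1⟩) p2 (mem_filter.2 ⟨hp2, h2⟩) p3
        (mem_filter.2 ⟨hp3, h3⟩) p4 (mem_filter.2 ⟨hp4, h4⟩) hp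
    · exact ⟨p4, hp4, p3, hp3, h4, h3, by rw [hM]; exact e3⟩
    · exact ⟨p3, hp3, p2, hp2, h3, h2, by rw [hM]; exact e2⟩
    · exact ⟨p3, hp3, p2, hp2, h3, h2, by rw [hM]; exact e2⟩
    · exact ⟨p2, hp2, p1, hp1, h2, h1, by rw [hM]; exact e1⟩
    · exact ⟨p2, hp2, p1, hp1, h2, h1, by rw [hM]; exact e1⟩
    · exact ⟨p2, hp2, p1, hp1, h2, h1, by rw [hM]; exact e1⟩
    · exact ⟨p2, hp2, p1, hp1, h2, h1, by rw [hM]; exact e1⟩
    · exact ⟨p1, hp1, p2, hp2, h1, h2, e1⟩
    · exact ⟨p1, hp1, p2, hp2, h1, h2, e1⟩
    · exact ⟨p1, hp1, p2, hp2, h1, h2, e1⟩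
    · exact ⟨p1, hp1, p2, hp2, h1, h2, e1⟩
    · exact ⟨p2, hp2, p3, hp3, h2, h3, e2⟩
    · exact ⟨p2, hp2, p3, hp3, h2, h3, e2⟩
    · exact ⟨p3, hp3, p4, hp4, h3, h4, e3⟩
    · exfalso
      exact hNb p1 (mem_filter.2 ⟨hp1, h1⟩) p2 (mem_filter.2 ⟨hp2, h2⟩) p3
        (mem_filter.2 ⟨hp3, h3⟩) p4 (mem_filter.2 ⟨hp4, h4⟩) hp
  -- (3): c, then d
  obtain ⟨c, hc, hcc, hbc, z', hz', hcz, hbz'⟩ : ∃ c ∈ C, M c c = true ∧ M b c = true ∧
      ∃ z ∈ C, M c z = true ∧ M b z = false := by
    cases h : M y y with
    | true => exact ⟨y, hy, h, hby, z, hz, hyz, hbz⟩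
    | false =>
      obtain ⟨p, hp, hpp, hpy, hpz⟩ := plus hM hC hmin hy h hz hyz
      refine ⟨p, hp, hpp, ?_, z, hz, hpz z hz hyz, hbz⟩
      rw [hM]
      exact hpz b hb (by rw [hM]; exact hby)
  have hcb : M c b = true := by rw [hM]; exact hbc
  obtain ⟨d', hd', hcd', hbd', hdd', hd'iso⟩ := iso hM hC hmin hb hbb hcb hz' hcz hbz'
  have hd'c : M d' c = true := by rw [hM]; exact hcd'
  obtain ⟨q, hq, hqq, hqd', hqz⟩ := plus hM hC hmin hd' hdd' hc hd'c
  have hqc : M q c = true := hqz c hc hd'c
  have hqb : M q b = true := by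
    by_contra hcon
    have h1 : M b q = false := by rw [hM]; simpa using hcon
    have h2 := hd'iso q hq (by rw [hM]; exact hqc) h1
    rw [hM, hqd'] at h2
    exact absurd h2 (by decide)
  obtain ⟨d, hd, hdd, hbd, ⟨q', hq', hdq'⟩, hdN⟩ : ∃ d ∈ C, M d d = false ∧ M b d = false ∧
      (∃ q ∈ C, M d q = true) ∧ ∀ y ∈ C, M d y = true → M b y = true := by
    by_cases hsub : ∀ y ∈ C, M d' y = true → M b y = true
    · exact ⟨d', hd', hdd', hbd', ⟨c, hc, hd'c⟩, hsub⟩
    · push Not at hsub
      obtain ⟨v, hv, hd'v, hbv⟩ := hsub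
      have hbv' : M b v = false := by simpa using hbv
      obtain ⟨K, hK, hdK, f, hf, hfK⟩ := comp hM hGb (hC.filter hM b false)
        (mem_filter.2 ⟨hd', hbd'⟩) (mem_filter.2 ⟨hv, hbv'⟩) hd'v
      have hfG := mem_filter.1 (hK.1 hf)
      have hff : M f f = true := hfK f hf
      have hne : f ≠ b := by
        rintro rfl
        have h := hfG.2
        rw [hbb] at h
        exact absurd h (by decide)
      have hfb : M f b = false := by rw [hM]; exact hfG.2
      obtain ⟨g, hg, a1, a2, a3, a4⟩ := hC f hfG.1 b hb hne (by rw [hff, hbb])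
        (by rw [hfb, hff]; rfl)
      rw [hff] at a1 a2 a3
      have hgG : M b g = false := by rw [hM]; exact a3
      have hgK : g ∉ K := by
        intro h
        have := hfK g h
        rw [hM, a2] at this
        exact absurd this (by decide)
      refine ⟨g, hg, a1, hgG, ⟨q, hq, ?_⟩, ?_⟩
      · have h1 : M f q = true := by
          rw [hM]
          apply hqz f hfG.1
          rw [hM]
          exact hfK d' hdK
        have h2 : M b q = true := by rw [hM]; exact hqb
        rw [a4 q (by rw [h1, h2]), h1]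
      · intro y hy hgy
        by_contra hcon
        have hby : M b y = false := by simpa using hcon
        have hyG : y ∈ C.filter (fun x => M b x = false) := mem_filter.2 ⟨hy, hby⟩
        by_cases hyK : y ∈ K
        · have := hK.2 y hyK g (mem_filter.2 ⟨hg, hgG⟩) hgK
          rw [hM, hgy] at this
          exact absurd this (by decide)
        · have h1 := hK.2 f hf y hyG hyK
          have h2 := a4 y (by rw [h1, hby])
          rw [hgy, h1] at h2
          exact absurd h2 (by decide)
  clear hd'iso hqz hcd' hd'c hqd' hbd' hdd' hd' hcz hbz' hz' hcb hbc hcc hqc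
  -- (4)
  obtain ⟨c, hc, hcc, hcd, hcN⟩ := plus hM hC hmin hd hdd hq' hdq'
  have hdc : M d c = true := by rw [hM]; exact hcd
  have hbc : M b c = true := hdN c hc hdc
  obtain ⟨z, hz, hbz, hcz⟩ : ∃ z ∈ C, M b z = true ∧ M c z = false := by
    by_contra hno
    push Not at hno
    have := hbmax c hc (fun z hz h => by simpa using hno z hz h) d hd hcd
    rw [hbd] at this
    exact absurd this (by decide)
  obtain ⟨a, ha, hba, hca, haa, haiso⟩ := iso hM hC hmin hc hcc hbc hz hbz hcz
  have had : M a d = false := by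
    by_contra hcon
    have h1 : M a d = true := by simpa using hcon
    have h2 := hcN a ha (by rw [hM]; exact h1)
    rw [hca] at h2
    exact absurd h2 (by decide)
  have hab : M a b = true := by rw [hM]; exact hba
  have hac : M a c = false := by rw [hM]; exact hca
  refine ⟨a, ha, b, hb, c, hc, d, hd, ⟨hab, hbc, hcd, hac, hbd, had⟩, haa, hbb, hcc, hdd, ?_⟩
  -- (5)
  intro g hg hbad
  rcases hbad with ⟨h1, h2, h3, h4⟩ | ⟨h1, h2, h3, h4⟩ | ⟨h1, h2, h3, h4⟩ | ⟨h1, h2, h3, h4⟩
  · have := haiso g hg (by rw [hM]; exact h2) (by rw [hM]; exact h3)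
    rw [hM, h1] at this
    exact absurd this (by decide)
  · have := hdN g hg (by rw [hM]; exact h4)
    rw [hM, h2] at this
    exact absurd this (by decide)
  · -- the last case
    have hE := (hmin d hd c hc d hd hdc hdd).2
    have hda : M d a = false := by rw [hM]; exact had
    have hdb : M d b = false := by rw [hM]; exact hbd
    have hdg : M d g = false := by rw [hM]; exact h4
    obtain ⟨K, hK, haK, f, hf, hfK⟩ := comp hM hE (hC.filter hM d false)
        (mem_filter.2 ⟨ha, hda⟩) (mem_filter.2 ⟨hb, hdb⟩) hab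
    have hbK : b ∈ K := by
      by_contra h
      have := hK.2 a haK b (mem_filter.2 ⟨hb, hdb⟩) h
      rw [hab] at this
      exact absurd this (by decide)
    have hgK : g ∈ K := by
      by_contra h
      have := hK.2 a haK g (mem_filter.2 ⟨hg, hdg⟩) h
      rw [hM, h1] at this
      exact absurd this (by decide)
    have hfE := mem_filter.1 (hK.1 hf)
    have hfd : M f d = false := by rw [hM]; exact hfE.2
    have hfa := hfK a haK
    have hfb := hfK b hbK
    have hfg := hfK g hgK
    have hcf : M c f = true := by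
      by_contra hcon
      have h5 := haiso f hfE.1 (by rw [hM]; exact hfb) (by simpa using hcon)
      rw [hM, hfa] at h5
      exact absurd h5 (by decide)
    obtain ⟨v, hv, hbv, hfv⟩ : ∃ v ∈ C, M b v = true ∧ M f v = false := by
      by_contra hno
      push Not at hno
      have := hbmax f hfE.1 (fun z hz h => by simpa using hno z hz h) g hg hfg
      rw [hM, h2] at this
      exact absurd this (by decide)
    have hdv : M d v = true := by
      by_contra hcon
      have hdv : M d v = false := by simpa using hcon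
      have hvK : v ∈ K := by
        by_contra h
        have := hK.2 b hbK v (mem_filter.2 ⟨hv, hdv⟩) h
        rw [hbv] at this
        exact absurd this (by decide)
      have := hfK v hvK
      rw [hfv] at this
      exact absurd this (by decide)
    have hcv := hcN v hv hdv
    have hNc := (hmin c hc c hc a ha hcc hca).1
    exact hNc f (mem_filter.2 ⟨hfE.1, hcf⟩) b (mem_filter.2 ⟨hb, by rw [hM]; exact hbc⟩)
      v (mem_filter.2 ⟨hv, hcv⟩) d (mem_filter.2 ⟨hd, hcd⟩)
      ⟨hfb, hbv, by rw [hM]; exact hdv, hfv, hbd, hfd⟩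
  · have := hcN g hg (by rw [hM]; exact h4)
    rw [hM, h3] at this
    exact absurd this (by decide)


/-- closed under midpoints and under agreement with paths -/
def Cyl (M : X → X → Bool) (C : Finset X) : Prop :=
  PairsIn M C ∧ ∀ a ∈ C, ∀ b ∈ C, ∀ c ∈ C, ∀ d ∈ C, ∀ w,
    (∀ y, M a y = M b y → M b y = M c y → M c y = M d y → M w y = M a y) → w ∈ C

lemma Cyl.filter {M : X → X → Bool} (hM : ∀ x y, M x y = M y x) {C : Finset X}
    (h : Cyl M C) (p : X) (s : Bool) : Cyl M (C.filter (fun x => M p x = s)) := by
  refine ⟨h.1.filter hM p s, ?_⟩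
  intro a ha b hb c hc d hd w hw
  rw [mem_filter] at ha hb hc hd ⊢
  refine ⟨h.2 a ha.1 b hb.1 c hc.1 d hd.1 w hw, ?_⟩
  have h1 : M a p = s := by rw [hM]; exact ha.2
  have h2 : M b p = s := by rw [hM]; exact hb.2
  have h3 : M c p = s := by rw [hM]; exact hc.2
  have h4 : M d p = s := by rw [hM]; exact hd.2
  rw [hM, hw p (by rw [h1, h2]) (by rw [h2, h3]) (by rw [h3, h4]), h1]

lemma core' {M : X → X → Bool} (hM : ∀ x y, M x y = M y x) {C : Finset X} (hC : PairsIn M C)
    (hmin : ∀ w ∈ C, ∀ y ∈ C, ∀ z ∈ C, M w y = true → M w z = false →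
      NoP4 M (C.filter (fun x => M w x = true)) ∧ NoP4 M (C.filter (fun x => M w x = false)))
    (h4 : ¬ NoP4 M C) :
    ∃ a ∈ C, ∃ b ∈ C, ∃ c ∈ C, ∃ d ∈ C, P4 M a b c d ∧ M a a = false ∧ M b b = true ∧
      M c c = true ∧ M d d = false ∧ ∀ g ∈ C, ¬ Bad M g a b c d := by
  by_cases hfull : ∃ w ∈ C, ∀ y ∈ C, M w y = true
  · obtain ⟨f, hf, hfC⟩ := hfull
    have hM' : ∀ x y, (fun x y => !M x y) x y = (fun x y => !M x y) y x :=
      fun x y => by simp only [hM x y]
    have h4' : ¬ NoP4 (fun x y => !M x y) C := by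
      intro h
      apply h4
      have := h.compl hM'
      simpa using this
    have hmin' : ∀ w ∈ C, ∀ y ∈ C, ∀ z ∈ C, (fun x y => !M x y) w y = true →
        (fun x y => !M x y) w z = false →
        NoP4 (fun x y => !M x y) (C.filter (fun x => (fun x y => !M x y) w x = true)) ∧
        NoP4 (fun x y => !M x y) (C.filter (fun x => (fun x y => !M x y) w x = false)) := by
      intro w hw y hy z hz h1 h2
      have h1' : M w y = false := by simpa using h1
      have h2' : M w z = true := by simpa using h2
      obtain ⟨e1, e2⟩ := hmin w hw z hz y hy h2' h1'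
      have f1 : C.filter (fun x => (fun x y => !M x y) w x = true) =
          C.filter (fun x => M w x = false) := by
        apply filter_congr
        intro x _
        simp
      have f2 : C.filter (fun x => (fun x y => !M x y) w x = false) =
          C.filter (fun x => M w x = true) := by
        apply filter_congr
        intro x _
        simp
      rw [f1, f2]
      exact ⟨e2.compl hM, e1.compl hM⟩
    have hfull' : ¬ ∃ w ∈ C, ∀ y ∈ C, (fun x y => !M x y) w y = true := by
      rintro ⟨w, hw, hwC⟩
      have h1 := hwC f hf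
      have h2 := hfC w hw
      rw [hM] at h2
      simp [h2] at h1
    obtain ⟨a, ha, b, hb, c, hc, d, hd, hp, haa, hbb, hcc, hdd, hbad⟩ :=
      core hM' hC.compl hmin' h4' hfull'
    unfold P4 at hp
    simp only [Bool.not_eq_true', Bool.not_eq_false'] at hp haa hbb hcc hdd
    obtain ⟨e1, e2, e3, e4, e5, e6⟩ := hp
    refine ⟨b, hb, d, hd, a, ha, c, hc, ⟨e5, by rw [hM]; exact e6, e4, by rw [hM]; exact e1,
      by rw [hM]; exact e3, e2⟩, hbb, hdd, haa, hcc, ?_⟩
    intro g hg hb'
    apply hbad g hg
    unfold Bad at hb' ⊢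
    simp only [Bool.not_eq_true', Bool.not_eq_false']
    tauto
  · exact core hM hC hmin h4 hfull

/-- the abstract lemma, Boolean form -/
theorem p3b [Fintype X] {M : X → X → Bool} (hM : ∀ x y, M x y = M y x)
    (hC : PairsIn M univ) (h4 : ¬ NoP4 M univ) :
    ∃ a b c d, P4 M a b c d ∧ M a a = false ∧ M b b = true ∧ M c c = true ∧ M d d = false ∧
      ∀ w, (∀ y, M a y = M b y → M b y = M c y → M c y = M d y → M w y = M a y) →
        ¬ Bad M w a b c d := by
  classical
  have hne : ((univ : Finset X).powerset.filter (fun C => Cyl M C ∧ ¬ NoP4 M C)).Nonempty :=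
    ⟨univ, by
      rw [mem_filter, mem_powerset]
      exact ⟨Subset.refl _, ⟨hC, fun _ _ _ _ _ _ _ _ w _ => mem_univ w⟩, h4⟩⟩
  obtain ⟨C, hCC, hmin⟩ := exists_min_image _ (fun C => C.card) hne
  rw [mem_filter] at hCC
  obtain ⟨_, hcyl, hC4⟩ := hCC
  have hm : ∀ w : X, ∀ s : Bool, (∃ z ∈ C, M w z ≠ s) → NoP4 M (C.filter (fun x => M w x = s)) := by
    intro w s ⟨z, hz, hwz⟩
    by_contra hcon
    have h1 := hmin (C.filter (fun x => M w x = s))
      (by
        rw [mem_filter, mem_powerset]
        exact ⟨subset_univ _, hcyl.filter hM w s, hcon⟩)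
    have h2 : C.filter (fun x => M w x = s) ⊂ C := by
      refine ⟨filter_subset _ _, fun h => ?_⟩
      exact hwz (mem_filter.1 (h hz)).2
    exact absurd (card_lt_card h2) (by omega)
  obtain ⟨a, ha, b, hb, c, hc, d, hd, hp, haa, hbb, hcc, hdd, hbad⟩ := core' hM hcyl.1
    (fun w _ y hy z hz h1 h2 =>
      ⟨hm w true ⟨z, hz, by rw [h2]; decide⟩, hm w false ⟨y, hy, by rw [h1]; decide⟩⟩) hC4
  refine ⟨a, b, c, d, hp, haa, hbb, hcc, hdd, ?_⟩
  intro w hw
  exact hbad w (hcyl.2 a ha b hb c hc d hd w hw)

/-- induced path, ZMod 2 form -/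
def IsP4 {V : Type*} (M : V → V → ZMod 2) (a b c d : V) : Prop :=
  M a b = 1 ∧ M b c = 1 ∧ M c d = 1 ∧ M a c = 0 ∧ M a d = 0 ∧ M b d = 0

/-- the abstract lemma P3', common form -/
theorem p3' {V : Type*} [Finite V] (M : V → V → ZMod 2) (hs : ∀ x y, M x y = M y x)
    (hpairs : ∀ u v, M u u = M v v → M u v ≠ M u u →
      ∃ g, M g g ≠ M u u ∧ M g u = M g g ∧ M g v = M g g ∧ ∀ x, M u x = M v x → M g x = M u x)
    (h4 : ∃ a b c d, IsP4 M a b c d) :
    ∃ a b c d, IsP4 M a b c d ∧ M a a = 0 ∧ M b b = 1 ∧ M c c = 1 ∧ M d d = 0 ∧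
      ∀ w, (∀ y, M a y = M b y → M b y = M c y → M c y = M d y → M w y = M a y) →
        ¬ (M w a = 1 ∧ M w b = 1 ∧ M w c = 0 ∧ M w d = 0) ∧
        ¬ (M w a = 1 ∧ M w b = 0 ∧ M w c = 1 ∧ M w d = 0) ∧
        ¬ (M w a = 0 ∧ M w b = 1 ∧ M w c = 0 ∧ M w d = 1) ∧
        ¬ (M w a = 0 ∧ M w b = 0 ∧ M w c = 1 ∧ M w d = 1) := by
  classical
  have : Fintype V := Fintype.ofFinite V
  set B : V → V → Bool := fun x y => decide (M x y = 1) with hB
  have b1 : ∀ x y, B x y = true ↔ M x y = 1 := by intro x y; simp [hB]
  have two : ∀ t : ZMod 2, t = 0 ∨ t = 1 := by decide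
  have b0 : ∀ x y, B x y = false ↔ M x y = 0 := by
    intro x y
    rcases two (M x y) with h | h <;> simp [hB, h]
  have be : ∀ x y u v, B x y = B u v ↔ M x y = M u v := by
    intro x y u v
    rcases two (M x y) with h | h <;> rcases two (M u v) with h' | h' <;> simp [hB, h, h']
  have bn : ∀ x y u v, B x y = (!B u v) ↔ M x y ≠ M u v := by
    intro x y u v
    rcases two (M x y) with h | h <;> rcases two (M u v) with h' | h' <;> simp [hB, h, h']
  have hBs : ∀ x y, B x y = B y x := fun x y => (be x y y x).2 (hs x y)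
  have hP : PairsIn B univ := by
    intro u _ v _ _ h1 h2
    obtain ⟨g, g1, g2, g3, g4⟩ := hpairs u v ((be _ _ _ _).1 h1) ((bn _ _ _ _).1 h2)
    refine ⟨g, mem_univ g, (bn _ _ _ _).2 g1, (bn _ _ _ _).2 (by rw [g2]; exact g1),
      (bn _ _ _ _).2 (by rw [g3]; exact g1), ?_⟩
    intro y hy
    exact (be _ _ _ _).2 (g4 y ((be _ _ _ _).1 hy))
  have hN : ¬ NoP4 B univ := by
    intro h
    obtain ⟨a, b, c, d, e1, e2, e3, e4, e5, e6⟩ := h4
    exact h a (mem_univ a) b (mem_univ b) c (mem_univ c) d (mem_univ d)
      ⟨(b1 _ _).2 e1, (b1 _ _).2 e2, (b1 _ _).2 e3, (b0 _ _).2 e4, (b0 _ _).2 e6, (b0 _ _).2 e5⟩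
  obtain ⟨a, b, c, d, hp, haa, hbb, hcc, hdd, hbad⟩ := p3b hBs hP hN
  obtain ⟨e1, e2, e3, e4, e5, e6⟩ := hp
  refine ⟨a, b, c, d, ⟨(b1 _ _).1 e1, (b1 _ _).1 e2, (b1 _ _).1 e3, (b0 _ _).1 e4, (b0 _ _).1 e6,
    (b0 _ _).1 e5⟩, (b0 _ _).1 haa, (b1 _ _).1 hbb, (b1 _ _).1 hcc, (b0 _ _).1 hdd, ?_⟩
  intro w hw
  have hw' := hbad w (fun y h1 h2 h3 => (be _ _ _ _).2
    (hw y ((be _ _ _ _).1 h1) ((be _ _ _ _).1 h2) ((be _ _ _ _).1 h3)))
  unfold Bad at hw'
  simp only [b1, b0] at hw'
  tauto

end H69P4
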